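import Pool.Agent.W743.BT.Defs
set_option autoImplicit false

/-! # Bochner-Riesz on sums of products: the local estimate for `p ≤ 2` -/

namespace Pool.Agent.W168.BT

open Set Filter MeasureTheory
open scoped Topology ContDiff FourierTransform ENNReal RealInnerProductSpace
open Pool.Agent.W773.BRA (E Bmp chi)
open Pool.Agent.W743.BT

/-- Hoelder's inequality on a set -/
lemma holder_set {X : Type*} [MeasurableSpace X] (μ : Measure X) (Q : Set X) (f : X → ℝ≥0∞)
    (hf : Measurable f) (p q : ℝ) (hp : 0 < p) (hpq : p ≤ q) :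
    ∫⁻ x in Q, f x ^ p ∂μ ≤ (∫⁻ x in Q, f x ^ q ∂μ) ^ (p / q) * μ Q ^ (1 - p / q) := by
  rcases hpq.eq_or_lt with h | h
  · subst h
    simp [div_self hp.ne']
  · have hq : 0 < q := hp.trans h
    have hpqr : 1 / p = 1 / q + 1 / (p * q / (q - p)) := by
      have : q - p ≠ 0 := by linarith
      field_simp
      ring
    have key := ENNReal.lintegral_Lp_mul_le_Lq_mul_Lr hp h hpqr (μ.restrict Q) hf.aemeasurable
      (aemeasurable_const (b := (1 : ℝ≥0∞)))
    have e1 : (∫⁻ x in Q, f x ^ p ∂μ) = ((∫⁻ x in Q, f x ^ p ∂μ) ^ (1 / p)) ^ p := by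
      rw [← ENNReal.rpow_mul, one_div, inv_mul_cancel₀ hp.ne', ENNReal.rpow_one]
    rw [e1]
    simp only [Pi.mul_apply, mul_one, ENNReal.one_rpow, lintegral_const, one_mul,
      Measure.restrict_apply_univ] at key
    refine (ENNReal.rpow_le_rpow key hp.le).trans (le_of_eq ?_)
    rw [ENNReal.mul_rpow_of_nonneg _ _ hp.le, ← ENNReal.rpow_mul, ← ENNReal.rpow_mul]
    have a1 : 1 / q * p = p / q := by ring
    have a2 : 1 / (p * q / (q - p)) * p = 1 - p / q := by
      have : q - p ≠ 0 := by linarith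
      field_simp
    rw [a1, a2]

/-- Cauchy-Schwarz for sums of products with at least two factors -/
lemma cs_prod (n M : ℕ) (hn : 2 ≤ n) (a : Fin M → Fin n → ℝ≥0∞) :
    (∑ k, ∏ j, a k j) ^ 2 ≤ ∏ j, ∑ k, a k j ^ 2 := by
  obtain ⟨n', rfl⟩ : ∃ n', n = n' + 1 + 1 := ⟨n - 2, by omega⟩
  have h1 : ∀ k, ∏ j, a k j = a k 0 * ∏ j : Fin (n' + 1), a k j.succ := fun k =>
    Fin.prod_univ_succ _
  have h2 : (∑ k, ∏ j, a k j) ^ 2 ≤
      (∑ k, a k 0 ^ 2) * ∑ k, (∏ j : Fin (n' + 1), a k j.succ) ^ 2 := by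
    simp_rw [h1]
    have hc := ENNReal.inner_le_Lp_mul_Lq Finset.univ (fun k => a k 0)
      (fun k => ∏ j : Fin (n' + 1), a k j.succ) (p := 2) (q := 2)
      (by constructor <;> norm_num)
    have h3 := pow_le_pow_left' hc 2
    refine h3.trans (le_of_eq ?_)
    rw [mul_pow]
    have e : ∀ x : ℝ≥0∞, (x ^ (1 / (2 : ℝ))) ^ 2 = x := by
      intro x
      rw [← ENNReal.rpow_natCast, ← ENNReal.rpow_mul]
      norm_num
    rw [e, e]
    simp
  refine h2.trans ?_
  rw [Fin.prod_univ_succ]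
  refine mul_le_mul_right ?_ _
  calc ∑ k, (∏ j : Fin (n' + 1), a k j.succ) ^ 2
      = ∑ k, a k (Fin.succ 0) ^ 2 * ∏ j : Fin n', a k j.succ.succ ^ 2 := by
        refine Finset.sum_congr rfl fun k _ => ?_
        rw [← Finset.prod_pow, Fin.prod_univ_succ]
    _ ≤ ∑ k, a k (Fin.succ 0) ^ 2 * ∏ j : Fin n', ∑ k, a k j.succ.succ ^ 2 := by
        refine Finset.sum_le_sum fun k _ => mul_le_mul_right ?_ _
        refine Finset.prod_le_prod' fun j _ => ?_
        exact Finset.single_le_sum (f := fun k => a k j.succ.succ ^ 2) (fun _ _ => by simp)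
          (Finset.mem_univ k)
    _ = ∏ i : Fin (n' + 1), ∑ k, a k i.succ ^ 2 := by
        rw [← Finset.sum_mul, Fin.prod_univ_succ]

/-- the volume of a box -/
lemma vol_box (n : ℕ) (c L : Fin n → ℝ) :
    volume {x : E n | ∀ j, |x j - c j| ≤ L j / 2} = ∏ j, ENNReal.ofReal (L j) := by
  have h1 : {x : E n | ∀ j, |x j - c j| ≤ L j / 2} =
      (WithLp.ofLp : E n → (Fin n → ℝ)) ⁻¹'
        (Set.pi Set.univ fun j => Set.Icc (c j - L j / 2) (c j + L j / 2)) := by
    ext x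
    simp only [Set.mem_ofPred_eq, Set.mem_preimage, Set.mem_pi, Set.mem_univ, forall_const, Set.mem_Icc]
    refine forall_congr' fun j => ?_
    rw [abs_le]
    constructor
    · rintro ⟨h, h'⟩; constructor <;> linarith
    · rintro ⟨h, h'⟩; constructor <;> linarith
  rw [h1, (PiLp.volume_preserving_ofLp (Fin n)).measure_preimage
    (MeasurableSet.univ_pi fun j => measurableSet_Icc).nullMeasurableSet, volume_pi_pi]
  refine Finset.prod_congr rfl fun j _ => ?_
  rw [Real.volume_Icc]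
  congr 1
  ring

/-- transfer of integrals -/
lemma lint_E (n : ℕ) (G : (Fin n → ℝ) → ℝ≥0∞) (hG : Measurable G) :
    ∫⁻ ξ : E n, G (fun j => ξ j) = ∫⁻ x : Fin n → ℝ, G x :=
  (PiLp.volume_preserving_ofLp (Fin n)).lintegral_comp hG

/-- Hoelder's inequality on an interval for the norms -/
lemma holder_int (F : ℝ → ℝ≥0∞) (hF : Measurable F) (l : ℝ)
    (hs : ∀ t, 2 * l < |t| → F t = 0) (α β : ℝ) (hα : α < 1) (hβ : β ≤ α) :
    (∫⁻ t, F t ^ (1 / (1 - β))) ^ (1 - β) ≤
      ENNReal.ofReal (4 * l) ^ (α - β) * (∫⁻ t, F t ^ (1 / (1 - α))) ^ (1 - α) := by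
  have hα' : 0 < 1 - α := by linarith
  have hβ' : 0 < 1 - β := by linarith
  have hrβ : 0 < 1 / (1 - β) := by positivity
  have hr : 0 < 1 / (1 - α) := by positivity
  have hle : 1 / (1 - β) ≤ 1 / (1 - α) := one_div_le_one_div_of_le hα' (by linarith)
  have hrestr : ∀ r : ℝ, 0 < r →
      ∫⁻ t, F t ^ r = ∫⁻ t in Icc (-(2 * l)) (2 * l), F t ^ r := by
    intro r hr0
    rw [← lintegral_indicator measurableSet_Icc]
    refine lintegral_congr fun t => ?_
    by_cases ht : t ∈ Icc (-(2 * l)) (2 * l)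
    · rw [indicator_of_mem ht]
    · rw [indicator_of_notMem ht, hs, ENNReal.zero_rpow_of_pos hr0]
      by_contra hcon
      rw [not_lt, abs_le] at hcon
      exact ht hcon
  rw [hrestr _ hrβ, hrestr _ hr]
  have h := holder_set volume (Icc (-(2 * l)) (2 * l)) F hF _ _ hrβ hle
  have hvol : volume (Icc (-(2 * l)) (2 * l)) = ENNReal.ofReal (4 * l) := by
    rw [Real.volume_Icc]; congr 1; ring
  rw [hvol] at h
  refine (ENNReal.rpow_le_rpow h hβ'.le).trans (le_of_eq ?_)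
  rw [ENNReal.mul_rpow_of_nonneg _ _ hβ'.le, ← ENNReal.rpow_mul, ← ENNReal.rpow_mul, mul_comm]
  have a1 : 1 / (1 - β) / (1 / (1 - α)) * (1 - β) = 1 - α := by
    field_simp
  have a2 : (1 - 1 / (1 - β) / (1 / (1 - α))) * (1 - β) = α - β := by
    rw [sub_mul, a1]; ring
  rw [a1, a2]

/-- the numerical factor of one coordinate -/
lemma num_le {N l Λ α β p : ℝ} (hN : 1 ≤ N) (hl0 : 0 < l) (hl : l ≤ 1) (hΛ : 1 ≤ Λ)
    (hβ : 0 ≤ β) (hβα : β ≤ α) (hp1 : 1 < p) (hp2 : p ≤ 2) (hα : α = 2 / p - 1) :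
    (16 / (N * l)) ^ (β * (p / 2)) * (4 * l) ^ ((α - β) * (p / 2)) * (Λ * (N * l)) ^ (1 - p / 2) ≤
      64 * Λ ^ p * N ^ ((α - β) * (p / 2)) := by
  have hp0 : 0 < p := by linarith
  have hN0 : 0 < N := by linarith
  have hΛ0 : 0 < Λ := by linarith
  set b : ℝ := β * (p / 2) with hb
  set a : ℝ := 1 - p / 2 with ha
  have hab : (α - β) * (p / 2) = a - b := by
    rw [hb, ha, hα]; field_simp
  have hb0 : 0 ≤ b := by positivity
  have hab0 : 0 ≤ a - b := by rw [← hab]; exact mul_nonneg (by linarith) (by linarith)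
  have ha1 : a ≤ 1 := by rw [ha]; linarith
  have hap : a ≤ p := by rw [ha]; linarith
  rw [hab]
  have e1 : (16 / (N * l)) ^ b = 16 ^ b * (N ^ (-b) * l ^ (-b)) := by
    rw [Real.div_rpow (by norm_num) (by positivity), Real.mul_rpow hN0.le hl0.le,
      Real.rpow_neg hN0.le, Real.rpow_neg hl0.le, div_eq_mul_inv, mul_inv]
  have e2 : (4 * l) ^ (a - b) = 4 ^ (a - b) * l ^ (a - b) :=
    Real.mul_rpow (by norm_num) hl0.le
  have e3 : (Λ * (N * l)) ^ a = Λ ^ a * (N ^ a * l ^ a) := by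
    rw [Real.mul_rpow hΛ0.le (by positivity), Real.mul_rpow hN0.le hl0.le]
  have e4 : N ^ (-b) * N ^ a = N ^ (a - b) := by
    rw [← Real.rpow_add hN0]; congr 1; ring
  have e5 : l ^ (-b) * l ^ (a - b) * l ^ a = l ^ (2 * (a - b)) := by
    rw [← Real.rpow_add hl0, ← Real.rpow_add hl0]; congr 1; ring
  have f1 : (16 : ℝ) ^ b ≤ 16 := by
    calc (16 : ℝ) ^ b ≤ 16 ^ (1 : ℝ) := Real.rpow_le_rpow_of_exponent_le (by norm_num) (by linarith)
      _ = 16 := Real.rpow_one _
  have f2 : (4 : ℝ) ^ (a - b) ≤ 4 := by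
    calc (4 : ℝ) ^ (a - b) ≤ 4 ^ (1 : ℝ) :=
          Real.rpow_le_rpow_of_exponent_le (by norm_num) (by linarith)
      _ = 4 := Real.rpow_one _
  have f3 : Λ ^ a ≤ Λ ^ p := Real.rpow_le_rpow_of_exponent_le hΛ hap
  have f4 : l ^ (2 * (a - b)) ≤ 1 := Real.rpow_le_one hl0.le hl (by linarith)
  have g1 : (0 : ℝ) ≤ 16 ^ b := Real.rpow_nonneg (by norm_num) _
  have g2 : (0 : ℝ) ≤ 4 ^ (a - b) := Real.rpow_nonneg (by norm_num) _
  have g3 : (0 : ℝ) ≤ Λ ^ a := Real.rpow_nonneg hΛ0.le _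
  have g4 : (0 : ℝ) ≤ l ^ (2 * (a - b)) := Real.rpow_nonneg hl0.le _
  have g5 : (0 : ℝ) ≤ N ^ (a - b) := Real.rpow_nonneg hN0.le _
  calc (16 / (N * l)) ^ b * (4 * l) ^ (a - b) * (Λ * (N * l)) ^ a
      = (16 ^ b * 4 ^ (a - b)) * Λ ^ a * (N ^ (-b) * N ^ a) *
          (l ^ (-b) * l ^ (a - b) * l ^ a) := by
        rw [e1, e2, e3]; ring
    _ = (16 ^ b * 4 ^ (a - b)) * Λ ^ a * N ^ (a - b) * l ^ (2 * (a - b)) := by rw [e4, e5]
    _ ≤ (16 * 4) * Λ ^ p * N ^ (a - b) * 1 := by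
        gcongr
    _ = 64 * Λ ^ p * N ^ (a - b) := by ring

lemma bmp_bdd {h : ℝ → ℝ} (hh : Bmp h) : ∃ B : ℝ, 1 ≤ B ∧ ∀ u, |h u| ≤ B := by
  obtain ⟨B, hB⟩ := isCompact_Icc.exists_bound_of_continuousOn
    (hh.1.continuous.continuousOn (s := Icc (1 / 2 : ℝ) 2))
  refine ⟨max B 1, le_max_right _ _, fun u => ?_⟩
  by_cases hu : u ∈ Icc (1 / 2 : ℝ) 2
  · exact (hB u hu).trans (le_max_left _ _)
  · rw [hh.2 u hu, abs_zero]
    exact zero_le_one.trans (le_max_right _ _)

lemma cont_fourier {f : ℝ → ℂ} (hf : Integrable f) : Continuous (𝓕 f) := by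
  have := VectorFourier.fourierIntegral_continuous (L := innerₗ ℝ) Real.continuous_fourierChar
    continuous_inner hf
  exact this

lemma meas_sq {M : ℕ} (g : Fin M → ℝ → ℂ) (hg : ∀ k, Nice (g k)) :
    Measurable (Pool.Agent.W743.BT.sq fun k => 𝓕 (g k)) := by
  unfold Pool.Agent.W743.BT.sq
  refine Finset.measurable_sum _ fun k _ => ?_
  exact ((cont_fourier (hg k).2.1).measurable.enorm).pow_const 2

theorem neara : S_HYV → S_SL → S_MEAS → S_MK → S_TK → S_TENF → S_NEARA := by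
  intro hHYV hSL hMEAS hMK hTK hTENF n hn p hp1 hp2 h hh
  obtain ⟨C₁, hC₁, hyv⟩ := hHYV p hp1 hp2
  obtain ⟨B, hB1, hB⟩ := bmp_bdd hh
  have hp0 : 0 < p := by linarith
  have hn0 : (0 : ℝ) < n := by
    have : (2 : ℝ) ≤ n := by exact_mod_cast hn
    linarith
  set α : ℝ := 2 / p - 1 with hα
  set β : ℝ := min α (1 / n) with hβ
  have hα0 : 0 ≤ α := by
    rw [hα, sub_nonneg, le_div_iff₀ hp0]; linarith
  have hα1 : α < 1 := by
    have : 2 / p < 2 := by rw [div_lt_iff₀ hp0]; linarith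
    rw [hα]; linarith
  have hβ0 : 0 ≤ β := le_min hα0 (by positivity)
  have hβα : β ≤ α := min_le_left _ _
  have hβn : (n : ℝ) * β ≤ 1 := by
    have : β ≤ 1 / n := min_le_right _ _
    calc (n : ℝ) * β ≤ n * (1 / n) := mul_le_mul_of_nonneg_left this hn0.le
      _ = 1 := by field_simp
  have hr : 1 / (1 - α) = p / (p - 1) / 2 := by
    have h1 : p - 1 ≠ 0 := by linarith
    have h2 : 1 - α = 2 * (p - 1) / p := by rw [hα]; field_simp; ring
    rw [h2]
    field_simp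
  have hαp : 1 - p / 2 = α * (p / 2) := by rw [hα]; field_simp
  -- the final constant
  set D : ℝ := 64 * C₁ ^ ((1 - α) * (p / 2)) with hD
  have hD0 : 0 < D := by positivity
  refine ⟨(B ^ 2) ^ (p / 2) * D ^ n, by positivity, ?_⟩
  intro N K κ Λ M g c hN hK1 hK2 hκ hΛ hg _
  have hN0 : 0 < N := by linarith
  have hΛ0 : 0 < Λ := by linarith
  set l : Fin n → ℝ := fun j => (1 / 2 : ℝ) ^ κ j with hl
  have hl0 : ∀ j, 0 < l j := fun j => by rw [hl]; positivity
  have hl1 : ∀ j, l j ≤ 1 := fun j => by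
    rw [hl]; exact pow_le_one₀ (by norm_num) (by norm_num)
  set m : E n → ℂ := mk (n := n) h N K κ with hm
  obtain ⟨hm1, hm2, hm3, hm4⟩ := (hMK n h hh N K hN).1 κ
  obtain ⟨ht1, ht2, -, ht4⟩ := hTENF n M g hg
  obtain ⟨hT1, -, -, -, hT5⟩ := hTK n m hm1.continuous hm2 (tens g) ht2
  obtain ⟨hA1, hA2⟩ := hMEAS n N K κ hK1 hK2 hκ
  set S : Fin n → ℝ≥0∞ := fun j => ∫⁻ t, Pool.Agent.W743.BT.sq (fun k => g k j) t ^ (p / 2) with hS
  set F : Fin n → ℝ → ℝ≥0∞ := fun j =>
    (Icc (-(2 * l j)) (2 * l j)).indicator (Pool.Agent.W743.BT.sq fun k => 𝓕 (g k j)) with hF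
  have hFm : ∀ j, Measurable (F j) := fun j =>
    (meas_sq (fun k => g k j) (fun k => hg k j)).indicator measurableSet_Icc
  have hF0 : ∀ j t, 2 * l j < |t| → F j t = 0 := by
    intro j t ht
    rw [hF]
    refine indicator_of_notMem ?_ _
    intro hmem
    rw [Set.mem_Icc, ← abs_le] at hmem
    linarith
  have hFle : ∀ j t, F j t ≤ Pool.Agent.W743.BT.sq (fun k => 𝓕 (g k j)) t := fun j t =>
    indicator_le_self' (fun _ _ => by simp) t
  -- the L² norm
  have hI2 : ∫⁻ x, ‖TT m (tens g) x‖ₑ ^ 2 ≤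
      ENNReal.ofReal (B ^ 2) * ∏ j, (ENNReal.ofReal (16 / (N * l j)) ^ β *
        (ENNReal.ofReal (4 * l j) ^ (α - β) *
          (ENNReal.ofReal C₁ ^ (1 - α) * S j ^ (2 / p)))) := by
    rw [hT5]
    have hGm : Measurable (fun x : Fin n → ℝ => ∏ j, F j (x j)) :=
      Finset.measurable_prod _ fun j _ => (hFm j).comp (measurable_pi_apply j)
    have h1 : ∫⁻ ξ : E n, ‖m ξ‖ₑ ^ 2 * ‖𝓕 (tens g) ξ‖ₑ ^ 2 ≤
        ∫⁻ ξ : E n, ENNReal.ofReal (B ^ 2) *
          (A N K κ).indicator (fun x : Fin n → ℝ => ∏ j, F j (x j)) (fun j => ξ j) := by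
      refine lintegral_mono fun ξ => ?_
      by_cases hmξ : m ξ = 0
      · simp [hmξ]
      · obtain ⟨hA, -⟩ := hm3 ξ hκ hmξ
        have hb : ‖m ξ‖ₑ ^ 2 ≤ ENNReal.ofReal (B ^ 2) := by
          rw [ENNReal.ofReal_pow (by linarith)]
          refine pow_le_pow_left' ?_ 2
          rw [← ofReal_norm]
          exact ENNReal.ofReal_le_ofReal (hm4 B hB ξ)
        refine mul_le_mul' hb ?_
        rw [indicator_of_mem hA, ht4]
        have hcoord : ∀ j, F j (ξ j) = Pool.Agent.W743.BT.sq (fun k => 𝓕 (g k j)) (ξ j) := by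
          intro j
          rw [hF]
          refine indicator_of_mem ?_ _
          rw [Set.mem_Icc, ← abs_le]
          exact (hA.2.2 j).1
        calc ‖∑ k, ∏ j, 𝓕 (g k j) (ξ j)‖ₑ ^ 2
            ≤ (∑ k, ∏ j, ‖𝓕 (g k j) (ξ j)‖ₑ) ^ 2 := by
              refine pow_le_pow_left' ((enorm_sum_le _ _).trans (le_of_eq ?_)) 2
              refine Finset.sum_congr rfl fun k _ => ?_
              rw [enorm_eq_nnnorm, nnnorm_prod, ENNReal.ofNNReal_finsetProd]
              rfl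
          _ ≤ ∏ j, ∑ k, ‖𝓕 (g k j) (ξ j)‖ₑ ^ 2 := cs_prod n M hn _
          _ = ∏ j, F j (ξ j) := by
              refine Finset.prod_congr rfl fun j _ => ?_
              rw [hcoord]
              rfl
    refine h1.trans ?_
    rw [lintegral_const_mul' _ _ ENNReal.ofReal_ne_top,
      lint_E n _ (hGm.indicator hA1), lintegral_indicator hA1]
    refine mul_le_mul_right ?_ _
    refine (hSL n hn (A N K κ) hA1 (fun j => ENNReal.ofReal (16 / (N * l j))) hA2 F hFm β hβ0
      hβn).trans ?_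
    refine Finset.prod_le_prod' fun j _ => mul_le_mul_right ?_ _
    refine (holder_int (F j) (hFm j) (l j) (hF0 j) α β hα1 hβα).trans ?_
    refine mul_le_mul_right ?_ _
    rw [hr]
    have h2 : ∫⁻ t, F j t ^ (p / (p - 1) / 2) ≤
        ENNReal.ofReal C₁ * S j ^ (1 / (p - 1)) := by
      refine (lintegral_mono fun t => ENNReal.rpow_le_rpow (hFle j t) ?_).trans
        (hyv M (fun k => g k j) (fun k => hg k j))
      have : 0 < p - 1 := by linarith
      positivity
    refine (ENNReal.rpow_le_rpow h2 (by linarith : 0 ≤ 1 - α)).trans (le_of_eq ?_)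
    rw [ENNReal.mul_rpow_of_nonneg _ _ (by linarith : 0 ≤ 1 - α), ← ENNReal.rpow_mul]
    congr 2
    rw [hα]
    have : p - 1 ≠ 0 := by linarith
    field_simp
    ring
  -- Hoelder on the box
  set Q : Set (E n) := {x : E n | ∀ j, |x j - c j| ≤ Len N Λ (κ j) / 2} with hQ
  have hvol : volume Q = ∏ j, ENNReal.ofReal (Λ * (N * l j)) := vol_box n c _
  have hTm : Measurable (fun x => ‖TT m (tens g) x‖ₑ) := hT1.measurable.enorm
  have hH := holder_set volume Q (fun x => ‖TT m (tens g) x‖ₑ) hTm p 2 hp0 hp2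
  have hI2' : ∫⁻ x in Q, ‖TT m (tens g) x‖ₑ ^ (2 : ℝ) ≤ ∫⁻ x, ‖TT m (tens g) x‖ₑ ^ 2 := by
    refine (setLIntegral_le_lintegral _ _).trans (le_of_eq ?_)
    refine lintegral_congr fun x => ?_
    rw [← ENNReal.rpow_natCast]; norm_num
  refine hH.trans ?_
  have hp20 : 0 ≤ p / 2 := by linarith
  have hE0 : 0 ≤ (1 - p / 2 : ℝ) := by linarith
  calc (∫⁻ x in Q, ‖TT m (tens g) x‖ₑ ^ (2 : ℝ)) ^ (p / 2) * volume Q ^ (1 - p / 2)
      ≤ (ENNReal.ofReal (B ^ 2) * ∏ j, (ENNReal.ofReal (16 / (N * l j)) ^ β *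
        (ENNReal.ofReal (4 * l j) ^ (α - β) *
          (ENNReal.ofReal C₁ ^ (1 - α) * S j ^ (2 / p))))) ^ (p / 2) *
          (∏ j, ENNReal.ofReal (Λ * (N * l j))) ^ (1 - p / 2) := by
        rw [hvol]
        gcongr
        exact hI2'.trans hI2
    _ = ENNReal.ofReal ((B ^ 2) ^ (p / 2)) *
          ∏ j, (ENNReal.ofReal ((16 / (N * l j)) ^ (β * (p / 2)) *
            (4 * l j) ^ ((α - β) * (p / 2)) * (Λ * (N * l j)) ^ (1 - p / 2) *
            C₁ ^ ((1 - α) * (p / 2))) * S j) := by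
        rw [ENNReal.mul_rpow_of_nonneg _ _ hp20, ← ENNReal.ofReal_rpow_of_nonneg (by positivity) hp20,
          ← ENNReal.prod_rpow_of_nonneg hp20, ← ENNReal.prod_rpow_of_nonneg hE0, mul_assoc,
          ← Finset.prod_mul_distrib]
        congr 1
        refine Finset.prod_congr rfl fun j _ => ?_
        have q1 : 0 < 16 / (N * l j) := by have := hl0 j; positivity
        have q2 : 0 < 4 * l j := by have := hl0 j; positivity
        have q3 : 0 < Λ * (N * l j) := by have := hl0 j; positivity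
        rw [ENNReal.mul_rpow_of_nonneg _ _ hp20, ENNReal.mul_rpow_of_nonneg _ _ hp20,
          ENNReal.mul_rpow_of_nonneg _ _ hp20, ← ENNReal.rpow_mul, ← ENNReal.rpow_mul,
          ← ENNReal.rpow_mul, ← ENNReal.rpow_mul, ENNReal.ofReal_rpow_of_pos q1,
          ENNReal.ofReal_rpow_of_pos q2, ENNReal.ofReal_rpow_of_pos q3,
          ENNReal.ofReal_rpow_of_pos hC₁]
        have e : 2 / p * (p / 2) = 1 := by field_simp
        rw [e, ENNReal.rpow_one, ENNReal.ofReal_mul (by positivity),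
          ENNReal.ofReal_mul (by positivity), ENNReal.ofReal_mul (by positivity)]
        ring
    _ ≤ ENNReal.ofReal ((B ^ 2) ^ (p / 2)) *
          ∏ j, (ENNReal.ofReal (D * (Λ ^ p * N ^ ((α - β) * (p / 2)))) * S j) := by
        refine mul_le_mul_right ?_ _
        refine Finset.prod_le_prod' fun j _ => mul_le_mul_left ?_ _
        refine ENNReal.ofReal_le_ofReal ?_
        have h1 := num_le hN (hl0 j) (hl1 j) hΛ hβ0 hβα hp1 hp2 hα
        have h2 : (0 : ℝ) ≤ C₁ ^ ((1 - α) * (p / 2)) := by positivity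
        calc (16 / (N * l j)) ^ (β * (p / 2)) *
            (4 * l j) ^ ((α - β) * (p / 2)) * (Λ * (N * l j)) ^ (1 - p / 2) *
            C₁ ^ ((1 - α) * (p / 2))
            ≤ (64 * Λ ^ p * N ^ ((α - β) * (p / 2))) * C₁ ^ ((1 - α) * (p / 2)) :=
              mul_le_mul_of_nonneg_right h1 h2
          _ = D * (Λ ^ p * N ^ ((α - β) * (p / 2))) := by rw [hD]; ring
    _ = ENNReal.ofReal ((B ^ 2) ^ (p / 2) * (D * (Λ ^ p * N ^ ((α - β) * (p / 2)))) ^ n) *
          ∏ j, S j := by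
        rw [Finset.prod_mul_distrib, Finset.prod_const, Finset.card_univ, Fintype.card_fin,
          ← ENNReal.ofReal_pow (by positivity), ← mul_assoc,
          ← ENNReal.ofReal_mul (by positivity)]
    _ ≤ ENNReal.ofReal ((B ^ 2) ^ (p / 2) * D ^ n * Λ ^ ((n : ℝ) * p) * N ^ (p * Ep n p)) *
          ∏ j, S j := by
        refine mul_le_mul_left ?_ _
        refine ENNReal.ofReal_le_ofReal ?_
        rw [mul_pow D, mul_pow (Λ ^ p)]
        have e1 : (Λ ^ p) ^ n = Λ ^ ((n : ℝ) * p) := by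
          rw [← Real.rpow_natCast, ← Real.rpow_mul hΛ0.le]; congr 1; ring
        have e2 : (N ^ ((α - β) * (p / 2))) ^ n ≤ N ^ (p * Ep n p) := by
          rw [← Real.rpow_natCast, ← Real.rpow_mul hN0.le]
          refine Real.rpow_le_rpow_of_exponent_le hN ?_
          have habs : |1 / 2 - 1 / p| = 1 / p - 1 / 2 := by
            rw [abs_of_nonpos]
            · ring
            · rw [sub_nonpos]
              exact one_div_le_one_div_of_le hp0 hp2
          unfold Ep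
          rw [habs]
          rcases le_total α (1 / (n : ℝ)) with hc | hc
          · have : β = α := min_eq_left hc
            rw [this]
            simp only [sub_self, zero_mul]
            exact mul_nonneg hp0.le (le_max_left _ _)
          · have hb : β = 1 / n := min_eq_right hc
            rw [hb]
            have h3 : (α - 1 / n) * (p / 2) * n = p * (n * (1 / p - 1 / 2) - 1 / 2) := by
              rw [hα]
              field_simp
            rw [h3]
            exact mul_le_mul_of_nonneg_left (le_max_right _ _) hp0.le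
        rw [e1]
        calc (B ^ 2) ^ (p / 2) * (D ^ n * (Λ ^ ((n : ℝ) * p) * (N ^ ((α - β) * (p / 2))) ^ n))
            ≤ (B ^ 2) ^ (p / 2) * (D ^ n * (Λ ^ ((n : ℝ) * p) * N ^ (p * Ep n p))) := by
              gcongr
          _ = _ := by ring

end Pool.Agent.W168.BT
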